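import Mathlib

/-!
Definitions: symmetric designs and their automorphisms, and the sets of block sizes used in the
statements.
-/

namespace Pool.Agent.H96.Sing

open Finset

/-- `B` is a symmetric `(v,k,l)`-design on the point set `Fin v`, with blocks `B j`, `j : Fin v`:
`k < v`, every block has exactly `k` points, every point lies in exactly `r` blocks (for some
number `r`) and any two distinct points lie together in exactly `l` blocks. -/
def IsSymmetricDesign (v k l : ℕ) (B : Fin v → Finset (Fin v)) : Prop :=
  k < v ∧ ∃ r : ℕ, (∀ j, (B j).card = k) ∧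
    (∀ x, (univ.filter (fun j => x ∈ B j)).card = r) ∧
    (∀ x y, x ≠ y → (univ.filter (fun j => x ∈ B j ∧ y ∈ B j)).card = l)

/-- The permutation `s` of the points is an automorphism of the family `B` of blocks: for some
permutation `t` of the block indices, `s` maps the block `B j` onto the block `B (t j)`. -/
def IsAut {v : ℕ} (B : Fin v → Finset (Fin v)) (s : Equiv.Perm (Fin v)) : Prop :=
  ∃ t : Equiv.Perm (Fin v), ∀ j x, s x ∈ B (t j) ↔ x ∈ B j

/-- `D` is a difference set with parameter `l` in the group `G`: every `g ≠ 1` can be written in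
exactly `l` ways as `a * b⁻¹` with `a, b ∈ D`. -/
def IsDifferenceSet (G : Type) [Group G] (D : Finset G) (l : ℕ) : Prop :=
  ∀ g : G, g ≠ 1 → Set.ncard {x : G × G | x.1 ∈ D ∧ x.2 ∈ D ∧ x.1 * x.2⁻¹ = g} = l

/-- The block sizes `l < k ≤ K` with `l ∣ k (k-1)`; for these (and only these) `k ≤ K` there is an
integer `v > k` with `l (v-1) = k (k-1)`. -/
def admissibleSizes (l K : ℕ) : Set ℕ := {k | l < k ∧ k ≤ K ∧ l ∣ k * (k - 1)}

/-- The block sizes `0 < k ≤ K` such that for some `v` there is a symmetric `(v,k,l)`-design which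
has, for every prime `q ≡ 3 mod 4` dividing `v`, an automorphism of order `q` with an even number of
fixed points. -/
def semiSizes (l K : ℕ) : Set ℕ :=
  {k | 0 < k ∧ k ≤ K ∧ ∃ (v : ℕ) (B : Fin v → Finset (Fin v)), IsSymmetricDesign v k l B ∧
    ∀ q : ℕ, q.Prime → q % 4 = 3 → q ∣ v →
      ∃ s, IsAut B s ∧ orderOf s = q ∧ Even (univ.filter (fun x => s x = x)).card}

/-- The block sizes `0 < k ≤ K` such that for some `v` there is a symmetric `(v,k,l)`-design which
has an automorphism of order `q` with an even number of fixed points. -/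
def evenSizes (q l K : ℕ) : Set ℕ :=
  {k | 0 < k ∧ k ≤ K ∧ ∃ (v : ℕ) (B : Fin v → Finset (Fin v)), IsSymmetricDesign v k l B ∧
    ∃ s, IsAut B s ∧ orderOf s = q ∧ Even (univ.filter (fun x => s x = x)).card}

end Pool.Agent.H96.Sing
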