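import Mathlib

/-!
Fixed point free elements of prime order in transitive groups.
-/

namespace Pool.Agent.H96.Sing

open Finset

/-- in a nilpotent group a nontrivial normal subgroup meets the centre -/
lemma meets_center {G : Type*} [Group G] [hG : Group.IsNilpotent G] (P : Subgroup G) [hP : P.Normal]
    (hne : P ≠ ⊥) : P ⊓ Subgroup.center G ≠ ⊥ := by
  obtain ⟨n, hn⟩ := hG.nilpotent
  have hex : ∃ n, P ⊓ Subgroup.upperCentralSeries G n ≠ ⊥ := by
    refine ⟨n, ?_⟩
    rw [hn, inf_top_eq]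
    exact hne
  classical
  set i := Nat.find hex with hi
  have hi1 := Nat.find_spec hex
  have hi0 : i ≠ 0 := by
    intro h0
    rw [← hi, h0, Subgroup.upperCentralSeries_zero, inf_bot_eq] at hi1
    exact hi1 rfl
  obtain ⟨j, hj⟩ := Nat.exists_eq_succ_of_ne_zero hi0
  have hj1 : P ⊓ Subgroup.upperCentralSeries G j = ⊥ := by
    by_contra hcon
    have := Nat.find_min' hex hcon
    omega
  rw [← hi, hj] at hi1
  intro hbot
  apply hi1
  rw [Subgroup.eq_bot_iff_forall]
  intro x hx
  obtain ⟨hxP, hxZ⟩ := Subgroup.mem_inf.mp hx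
  have hxc : x ∈ Subgroup.center G := by
    rw [Subgroup.mem_center_iff]
    intro g
    have h1 : x * g * x⁻¹ * g⁻¹ ∈ Subgroup.upperCentralSeries G j :=
      Subgroup.mem_upperCentralSeries_succ_iff.mp hxZ g
    have h2 : x * g * x⁻¹ * g⁻¹ ∈ P := by
      have h3 : g * x⁻¹ * g⁻¹ ∈ P := hP.conj_mem _ (P.inv_mem hxP) g
      have h4 := P.mul_mem hxP h3
      have h5 : x * (g * x⁻¹ * g⁻¹) = x * g * x⁻¹ * g⁻¹ := by group
      rwa [h5] at h4
    have h6 : x * g * x⁻¹ * g⁻¹ ∈ P ⊓ Subgroup.upperCentralSeries G j := ⟨h2, h1⟩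
    rw [hj1, Subgroup.mem_bot] at h6
    have h7 : x * g = g * x := by
      have := mul_eq_one_iff_eq_inv.mp h6
      have h8 : x * g * x⁻¹ = g := by simpa using this
      exact mul_inv_eq_iff_eq_mul.mp h8
    exact h7.symm
  have : x ∈ P ⊓ Subgroup.center G := ⟨hxP, hxc⟩
  rw [hbot, Subgroup.mem_bot] at this
  exact this

theorem fpf_of_group {v : ℕ} (hv : 0 < v) (H : Subgroup (Equiv.Perm (Fin v)))
    (htrans : ∀ x y, ∃ s ∈ H, s x = y)
    (hcond : (∀ x : Fin v, Nat.Coprime (Nat.card (MulAction.stabilizer H x)) v) ∨ Group.IsNilpotent H)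
    (q : ℕ) (hq : q.Prime) (hqv : q ∣ v) : ∃ s ∈ H, s^q = 1 ∧ ∀ x, s x ≠ x := by
  have : Fact q.Prime := ⟨hq⟩
  have : NeZero v := ⟨hv.ne'⟩
  have hpre : MulAction.IsPretransitive H (Fin v) := ⟨fun x y => by
    obtain ⟨s, hs, hxy⟩ := htrans x y
    exact ⟨⟨s, hs⟩, hxy⟩⟩
  have hidx : (MulAction.stabilizer H (0 : Fin v)).index = v := by
    rw [MulAction.index_stabilizer_of_transitive, Nat.card_eq_fintype_card, Fintype.card_fin]
  have hqH : q ∣ Nat.card H := by
    refine hqv.trans ?_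
    have h1 := Subgroup.index_dvd_card (MulAction.stabilizer H (0 : Fin v))
    obtain ⟨w, hw⟩ := h1
    exact ⟨w, by rw [hw, hidx]⟩
  rcases hcond with hcop | hnil
  · obtain ⟨s, hs⟩ := exists_prime_orderOf_dvd_card' q hqH
    refine ⟨s.1, s.2, ?_, fun x hx => ?_⟩
    · have := pow_orderOf_eq_one s
      rw [hs] at this
      exact congrArg Subtype.val this
    · have hmem : s ∈ MulAction.stabilizer H x := hx
      have h1 : q ∣ Nat.card (MulAction.stabilizer H x) := by
        rw [← hs]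
        have h2 : orderOf (⟨s, hmem⟩ : MulAction.stabilizer H x) = orderOf s :=
          Subgroup.orderOf_mk s hmem
        rw [← h2]
        exact orderOf_dvd_natCard _
      have h3 := Nat.dvd_gcd h1 hqv
      rw [hcop x] at h3
      exact hq.one_lt.ne' (Nat.dvd_one.mp h3)
  · obtain ⟨P⟩ : Nonempty (Sylow q H) := inferInstance
    have hPne : (P : Subgroup H) ≠ ⊥ := by
      intro h
      have h1 := P.dvd_card_of_dvd_card hqH
      rw [h] at h1
      simp at h1
      exact hq.one_lt.ne' h1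
    have hmeet := meets_center (P : Subgroup H) hPne
    have hpg : IsPGroup q ((P : Subgroup H) ⊓ Subgroup.center H : Subgroup H) :=
      P.isPGroup'.to_inf_left
    set W : Subgroup H := (P : Subgroup H) ⊓ Subgroup.center H with hW
    have hnt : Nontrivial W := (Subgroup.nontrivial_iff_ne_bot W).mpr hmeet
    have hdvd : q ∣ Nat.card W := by
      obtain ⟨n, hn0, hn⟩ := hpg.nontrivial_iff_card.mp hnt
      rw [hn]
      exact dvd_pow_self q hn0.ne'
    obtain ⟨z, hz⟩ := exists_prime_orderOf_dvd_card' q hdvd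
    have hzq : z^q = 1 := by rw [← hz]; exact pow_orderOf_eq_one z
    have hz1 : z ≠ 1 := by
      rintro rfl
      rw [orderOf_one] at hz
      exact hq.one_lt.ne hz
    refine ⟨z.1.1, z.1.2, ?_, fun x hx => hz1 ?_⟩
    · have h1 := congrArg (fun w : W => w.1.1) hzq
      exact h1
    · have hzc : z.1 ∈ Subgroup.center H := (Subgroup.mem_inf.mp z.2).2
      apply Subtype.ext
      apply Subtype.ext
      ext1 y
      obtain ⟨s, hs, hxy⟩ := htrans x y
      have h2 := Subgroup.mem_center_iff.mp hzc ⟨s, hs⟩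
      have h3 : s * z.1.1 = z.1.1 * s := congrArg Subtype.val h2
      change z.1.1 y = y
      rw [← hxy, ← Equiv.Perm.mul_apply, ← h3, Equiv.Perm.mul_apply, hx]

end Pool.Agent.H96.Sing
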