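import Mathlib
import Pool.Agent.H96.Sing.Defs
import Pool.Agent.H96.Sing.Group

/-!
Difference sets give symmetric designs with fixed point free automorphisms.
-/

namespace Pool.Agent.H96.Sing

open Finset Classical

theorem design_of_diffSet (G : Type) [Group G] [Finite G] (D : Finset G) (l : ℕ)
    (hD : IsDifferenceSet G D l) (hlt : D.card < Nat.card G) :
    ∃ B : Fin (Nat.card G) → Finset (Fin (Nat.card G)),
      IsSymmetricDesign (Nat.card G) D.card l B ∧
      ∀ q : ℕ, q.Prime → q ∣ Nat.card G → ∃ s, IsAut B s ∧ s ^ q = 1 ∧ ∀ x, s x ≠ x := by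
  have : Fintype G := Fintype.ofFinite G
  let e : G ≃ Fin (Nat.card G) := Finite.equivFin G
  let B : Fin (Nat.card G) → Finset (Fin (Nat.card G)) :=
    fun j => univ.filter (fun x => e.symm x * (e.symm j)⁻¹ ∈ D)
  have hB : ∀ j x, x ∈ B j ↔ e.symm x * (e.symm j)⁻¹ ∈ D := by
    intro j x; simp [B]
  refine ⟨B, ⟨hlt, D.card, fun j => ?_, fun x => ?_, fun x y hxy => ?_⟩, fun q hq hqv => ?_⟩
  · refine card_bij' (fun x _ => e.symm x * (e.symm j)⁻¹) (fun d _ => e (d * e.symm j)) ?_ ?_ ?_ ?_
    · intro x hx; exact (hB j x).mp hx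
    · intro d hd; rw [hB]; simpa using hd
    · intro x _; simp
    · intro d _; simp
  · refine card_bij' (fun j _ => e.symm x * (e.symm j)⁻¹) (fun d _ => e (d⁻¹ * e.symm x)) ?_ ?_ ?_ ?_
    · intro j hj
      rw [mem_filter] at hj
      exact (hB j x).mp hj.2
    · intro d hd
      rw [mem_filter]
      refine ⟨mem_univ _, ?_⟩
      rw [hB]; simpa using hd
    · intro j _; simp
    · intro d _; simp
  · have hg : e.symm x * (e.symm y)⁻¹ ≠ 1 := by
      intro h
      exact hxy (e.symm.injective (mul_inv_eq_one.mp h))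
    rw [← hD _ hg, ← Set.ncard_coe_finset]
    refine Set.ncard_congr (fun j _ => (e.symm x * (e.symm j)⁻¹, e.symm y * (e.symm j)⁻¹)) ?_ ?_ ?_
    · intro j hj
      rw [mem_coe, mem_filter] at hj
      refine ⟨(hB j x).mp hj.2.1, (hB j y).mp hj.2.2, ?_⟩
      simp
    · intro i j _ _ h
      simp only [Prod.mk.injEq, mul_right_inj, inv_inj] at h
      exact e.symm.injective h.1
    · rintro ⟨a, b⟩ ⟨ha, hb, hab⟩
      simp only at ha hb hab
      have h1 : a⁻¹ * e.symm x = b⁻¹ * e.symm y := by
        have h2 : a * b⁻¹ * e.symm y = e.symm x := by rw [hab]; simp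
        rw [← h2]; group
      refine ⟨e (a⁻¹ * e.symm x), ?_, ?_⟩
      · rw [mem_coe, mem_filter]
        refine ⟨mem_univ _, ?_, ?_⟩
        · rw [hB]; simpa using ha
        · rw [hB, h1]; simpa using hb
      · simp only [Equiv.symm_apply_apply, Prod.mk.injEq]
        refine ⟨by simp, ?_⟩
        rw [h1]; simp
  · have : Fact q.Prime := ⟨hq⟩
    obtain ⟨g, hg⟩ := exists_prime_orderOf_dvd_card' q hqv
    have hgq : g^q = 1 := by rw [← hg]; exact pow_orderOf_eq_one g
    have hg1 : g ≠ 1 := by
      rintro rfl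
      rw [orderOf_one] at hg
      exact hq.one_lt.ne hg
    let s : Equiv.Perm (Fin (Nat.card G)) := e.symm.trans ((Equiv.mulRight g).trans e)
    have hs : ∀ x, s x = e (e.symm x * g) := fun x => rfl
    have hpow : ∀ n : ℕ, ∀ x, (s^n) x = e (e.symm x * g^n) := by
      intro n
      induction n with
      | zero => intro x; simp
      | succ n ih =>
        intro x
        rw [pow_succ', Equiv.Perm.mul_apply, ih, hs]
        simp [pow_succ, mul_assoc]
    refine ⟨s, ⟨s, fun j x => ?_⟩, ?_, fun x hx => hg1 ?_⟩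
    · rw [hB, hB, hs, hs]
      simp
    · ext1 x
      rw [hpow, hgq]
      simp
    · rw [hs] at hx
      have := congrArg e.symm hx
      simpa using this

end Pool.Agent.H96.Sing
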