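import Mathlib

/-!
A descent lemma of Mann type for integer valued functions on a cyclic group of prime order.
-/

namespace Pool.Agent.H96.Sing

open Finset

section basic

variable {R : Type*} [CommRing R] {q : ℕ} [NeZero q]

/-- the element of the group algebra of `ZMod q` attached to a function -/
noncomputable def A (g : ZMod q → R) : AddMonoidAlgebra R (ZMod q) :=
  ∑ i, AddMonoidAlgebra.single i (g i)

lemma A_coeff (g : ZMod q → R) (j : ZMod q) : (A g).coeff j = g j := by
  unfold A
  rw [AddMonoidAlgebra.coeff_sum, Finsupp.finsetSum_apply]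
  simp [AddMonoidAlgebra.coeff_single, Finsupp.single_apply]

lemma A_injective {f g : ZMod q → R} (h : A f = A g) (j : ZMod q) : f j = g j := by
  rw [← A_coeff f j, h, A_coeff]

lemma A_zero : A (fun _ : ZMod q => (0 : R)) = 0 := by
  simp [A]

lemma A_surj (x : AddMonoidAlgebra R (ZMod q)) : A (fun i => x.coeff i) = x := by
  apply AddMonoidAlgebra.coeff_injective
  ext j
  rw [A_coeff]

lemma A_add (f g : ZMod q → R) : A (fun i => f i + g i) = A f + A g := by
  simp [A, AddMonoidAlgebra.single_add, sum_add_distrib]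

/-- product with a reversed function: correlation -/
lemma A_mul_rev (f g : ZMod q → R) :
    A f * A (fun i => g (-i)) = A (fun j => ∑ i, f (j + i) * g i) := by
  unfold A
  rw [sum_mul_sum]
  simp only [AddMonoidAlgebra.single_mul_single]
  have h1 : ∀ j : ZMod q, (AddMonoidAlgebra.single j (∑ i, f (j + i) * g i) :
      AddMonoidAlgebra R (ZMod q)) = ∑ i, AddMonoidAlgebra.single j (f (j + i) * g i) := by
    intro j
    exact map_sum (AddMonoidAlgebra.singleAddHom j) _ _
  simp only [h1]
  rw [← sum_product', ← sum_product']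
  refine sum_bij' (fun x _ => (x.1 + x.2, -x.2)) (fun x _ => (x.1 + x.2, -x.2)) ?_ ?_ ?_ ?_ ?_
  · intro x _; simp
  · intro x _; simp
  · intro x _; simp
  · intro x _; simp
  · intro x _; simp

end basic

section charp

variable {p q : ℕ} [hp : Fact p.Prime] [hq : Fact q.Prime]

lemma A_pow (g : ZMod q → ZMod p) (m : ℕ) :
    (A g)^(p^m) = ∑ i, AddMonoidAlgebra.single ((p:ZMod q)^m * i) (g i) := by
  have : CharP (AddMonoidAlgebra (ZMod p) (ZMod q)) p :=
    charP_of_injective_algebraMap (RingHom.injective (algebraMap (ZMod p) _)) p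
  unfold A
  rw [sum_pow_char_pow]
  refine sum_congr rfl fun i _ => ?_
  rw [AddMonoidAlgebra.single_pow, ZMod.pow_card_pow]
  congr 1
  rw [nsmul_eq_mul]; push_cast; rfl

lemma A_pow_neg (g : ZMod q → ZMod p) (m : ℕ) (hm : (p:ZMod q)^m = -1) :
    (A g)^(p^m) = A (fun i => g (-i)) := by
  rw [A_pow, hm]
  unfold A
  refine Fintype.sum_equiv (Equiv.neg _) _ _ fun i => ?_
  simp

lemma A_pow_one (g : ZMod q → ZMod p) (m : ℕ) (hm : (p:ZMod q)^m = 1) :
    (A g)^(p^m) = A g := by
  rw [A_pow, hm]
  unfold A
  simp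

/-- the key congruence -/
lemma const_mod (h2q : 2 < q) (g : ZMod q → ZMod p) (m : ℕ) (hm : (p:ZMod q)^m = -1) (hpq : (q : ZMod p) ≠ 0)
    (μ : ZMod p) (h : ∀ j, ∑ i, g (j + i) * g i = μ) (j : ZMod q) : g j = (∑ i, g i) / q := by
  set c := (∑ i, g i) / q with hc
  set e : ZMod q → ZMod p := fun i => g i - c with he
  have hsum : ∑ i, e i = 0 := by
    rw [he, sum_sub_distrib, sum_const, card_univ, ZMod.card, nsmul_eq_mul, hc]
    field_simp
    simp
  have hcor : ∀ j, ∑ i, e (j + i) * e i = μ - q * c^2 := by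
    intro j
    have h1 : ∀ i, e (j + i) * e i = g (j+i) * g i - c * g (j+i) - c * g i + c^2 := by
      intro i; simp only [he]; ring
    have h2 : ∑ i, g (j + i) = ∑ i, g i := Fintype.sum_equiv (Equiv.addLeft j) _ _ fun i => rfl
    simp only [h1]
    rw [sum_add_distrib, sum_sub_distrib, sum_sub_distrib, ← mul_sum, ← mul_sum, h2, h, sum_const,
      card_univ, ZMod.card, nsmul_eq_mul]
    have h3 : ∑ i, g i = q * c := by rw [hc]; field_simp
    rw [h3]; ring
  have hzero : μ - q * c^2 = 0 := by
    have h1 : ∑ j, ∑ i, e (j + i) * e i = 0 := by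
      rw [sum_comm]
      simp only [← sum_mul]
      have h2 : ∀ i, ∑ j, e (j + i) = 0 := by
        intro i
        rw [← hsum]
        exact Fintype.sum_equiv (Equiv.addRight i) _ _ fun i => rfl
      simp [h2]
    simp only [hcor, sum_const, card_univ, ZMod.card, nsmul_eq_mul] at h1
    exact (mul_eq_zero.mp h1).resolve_left hpq
  have hE : A e * (A e)^(p^m) = 0 := by
    rw [A_pow_neg e m hm, A_mul_rev]
    simp only [hcor, hzero]
    exact A_zero
  have hm0 : m ≠ 0 := by
    rintro rfl
    rw [pow_zero] at hm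
    -- then 1 = -1 in ZMod q, q = 2
    have h2 : (2 : ZMod q) = 0 := by linear_combination hm
    have : q = 2 := by
      have h3 : ((2:ℕ) : ZMod q) = 0 := by exact_mod_cast h2
      rw [ZMod.natCast_eq_zero_iff] at h3
      exact (Nat.prime_dvd_prime_iff_eq hq.out Nat.prime_two).mp h3
    omega
  have hE2 : (A e)^(p^(2*m)) = 0 := by
    have h1 : p^m + 1 ≤ p^(2*m) := by
      have h2 : 2 ≤ p^m := by
        calc 2 ≤ p := hp.out.two_le
          _ = p^1 := (pow_one p).symm
          _ ≤ p^m := Nat.pow_le_pow_right hp.out.pos (Nat.one_le_iff_ne_zero.mpr hm0)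
      rw [two_mul, pow_add]
      nlinarith
    obtain ⟨r, hr⟩ := Nat.exists_eq_add_of_le h1
    rw [hr, pow_add, pow_succ, mul_comm ((A e)^(p^m)), hE, zero_mul]
  have hE3 : A e = 0 := by
    rw [A_pow_one e (2*m) (by rw [mul_comm, pow_mul, hm]; ring)] at hE2
    exact hE2
  have h5 : e j = 0 := by
    have := A_injective (f := e) (g := fun _ => 0) (by rw [hE3, A_zero]) j
    exact this
  rw [he] at h5
  exact sub_eq_zero.mp h5

/-- Mann type descent -/
theorem even_val (h2q : 2 < q) (hpq : p ≠ q) (m : ℕ) (hm : (p:ZMod q)^m = -1) (a : ℕ) :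
    ∀ (N : ℤ) (μ : ℤ) (F : ZMod q → ℤ), N ≠ 0 → padicValInt p N = a →
      (∀ j, ∑ i, F (j + i) * F i = (if j = 0 then N else 0) + μ) → Even a := by
  induction a using Nat.strong_induction_on with
  | _ a ih =>
    intro N μ F hN ha hF
    rcases Nat.eq_zero_or_pos a with h0 | h0
    · rw [h0]; exact Even.zero
    have hpN : (p:ℤ) ∣ N := by
      by_contra hcon
      have := padicValInt.eq_zero_of_not_dvd hcon
      omega
    have hqp : (q : ZMod p) ≠ 0 := by
      intro h
      rw [ZMod.natCast_eq_zero_iff] at h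
      exact hpq ((Nat.prime_dvd_prime_iff_eq hp.out hq.out).mp h)
    have h1 : ∀ j, ((F j : ℤ) : ZMod p) = (∑ i, ((F i : ℤ) : ZMod p)) / q := by
      intro j
      refine const_mod h2q (fun i => ((F i : ℤ) : ZMod p)) m hm hqp (μ : ZMod p) ?_ j
      intro j
      have h2 := congrArg (fun x : ℤ => (x : ZMod p)) (hF j)
      push_cast at h2
      rw [h2]
      have h3 : ((N : ℤ) : ZMod p) = 0 := (ZMod.intCast_zmod_eq_zero_iff_dvd N p).mpr hpN
      rw [h3]
      split_ifs <;> simp
    have h2 : ∀ j, (p:ℤ) ∣ F j - F 0 := by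
      intro j
      rw [← ZMod.intCast_zmod_eq_zero_iff_dvd]
      push_cast
      rw [h1 j, h1 0, sub_self]
    choose G hG using h2
    have hFG : ∀ j, F j = F 0 + p * G j := fun j => by rw [← hG j]; ring
    set c := F 0 with hc
    have hcorr : ∀ j, (if j = 0 then N else 0) + μ =
        (q * c^2 + 2 * c * p * ∑ i, G i) + p^2 * ∑ i, G (j + i) * G i := by
      intro j
      rw [← hF j]
      have h4 : ∀ i, F (j + i) * F i = c^2 + c * p * G i + c * p * G (j+i)
          + p^2 * (G (j+i) * G i) := by
        intro i; rw [hFG (j+i), hFG i]; ring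
      have h5 : ∑ i, G (j + i) = ∑ i, G i := Fintype.sum_equiv (Equiv.addLeft j) _ _ fun i => rfl
      simp only [h4]
      rw [sum_add_distrib, sum_add_distrib, sum_add_distrib, ← mul_sum, ← mul_sum, ← mul_sum, h5,
        sum_const, card_univ, ZMod.card, nsmul_eq_mul]
      ring
    have h10 : (1 : ZMod q) ≠ 0 := by
      have : Fact (1 < q) := ⟨by omega⟩
      exact one_ne_zero
    have e0 := hcorr 0
    have e1 := hcorr 1
    rw [if_pos rfl] at e0
    rw [if_neg h10] at e1
    set S : ZMod q → ℤ := fun j => ∑ i, G (j + i) * G i with hS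
    have hN' : N = p^2 * (S 0 - S 1) := by
      simp only [hS]
      linear_combination e0 - e1
    have hp0 : (p:ℤ) ≠ 0 := by exact_mod_cast hp.out.ne_zero
    have hN'0 : S 0 - S 1 ≠ 0 := by
      intro h
      rw [h, mul_zero] at hN'
      exact hN hN'
    have hval : padicValInt p N = 2 + padicValInt p (S 0 - S 1) := by
      rw [hN', padicValInt.mul (pow_ne_zero 2 hp0) hN'0]
      congr 1
      rw [sq, padicValInt.mul hp0 hp0, padicValInt.self hp.out.one_lt]
    have hlt : a - 2 < a := by omega
    have := ih (a - 2) hlt (S 0 - S 1) (S 1) G hN'0 (by omega) (by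
      intro j
      change S j = _
      split_ifs with hj
      · rw [hj]; ring
      · have ej := hcorr j
        rw [if_neg hj] at ej
        have h6 : (p:ℤ)^2 * (S j - S 1) = 0 := by
          simp only [hS]
          linear_combination e1 - ej
        have h7 := (mul_eq_zero.mp h6).resolve_left (pow_ne_zero 2 hp0)
        linarith)
    have h8 : a = (a - 2) + 2 := by omega
    rw [h8]
    exact this.add (by decide)

end charp

end Pool.Agent.H96.Sing
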