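import Mathlib
import Pool.Agent.H96.Sing.Mann

/-!
From a square matrix over the integral group ring of a cyclic group whose rows are orthogonal
modulo the all one element, to a single element of the group ring (the determinant).
-/

namespace Pool.Agent.H96.Sing

open Finset

variable {q : ℕ} [NeZero q]

/-- the involution of the group ring -/
noncomputable def rev : AddMonoidAlgebra ℤ (ZMod q) →+* AddMonoidAlgebra ℤ (ZMod q) :=
  AddMonoidAlgebra.mapDomainRingHom ℤ (negAddMonoidHom : ZMod q →+ ZMod q)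

lemma rev_A (g : ZMod q → ℤ) : rev (A g) = A (fun i => g (-i)) := by
  unfold A
  rw [map_sum]
  refine Fintype.sum_equiv (Equiv.neg _) _ _ fun i => ?_
  simp [rev]

/-- the all one element -/
noncomputable def T : AddMonoidAlgebra ℤ (ZMod q) := A (fun _ => (1:ℤ))

lemma mul_T_coeff (s : AddMonoidAlgebra ℤ (ZMod q)) (j : ZMod q) :
    (s * T).coeff j = ∑ i, s.coeff i := by
  have h1 := A_mul_rev (fun i => s.coeff i) (fun _ : ZMod q => (1:ℤ))
  rw [A_surj] at h1
  unfold T
  rw [h1, A_coeff]
  simp only [mul_one]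
  exact Fintype.sum_equiv (Equiv.addLeft j) _ _ fun i => rfl

lemma intCast_coeff (m : ℤ) (i : ZMod q) :
    ((m : AddMonoidAlgebra ℤ (ZMod q))).coeff i = if i = 0 then m else 0 := by
  rw [AddMonoidAlgebra.intCast_def, AddMonoidAlgebra.coeff_single, Finsupp.single_apply]
  simp [eq_comm]

lemma A_delta (n c : ℤ) (P : Prop) [Decidable P] :
    A (fun j : ZMod q => (if P ∧ j = 0 then n else 0) + c) =
      (if P then (n : AddMonoidAlgebra ℤ (ZMod q)) else 0) + (c : AddMonoidAlgebra ℤ (ZMod q)) * T := by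
  apply AddMonoidAlgebra.coeff_injective
  ext j
  rw [A_coeff, AddMonoidAlgebra.coeff_add, Finsupp.add_apply, mul_T_coeff]
  simp only [intCast_coeff]
  by_cases hP : P
  · simp [hP, intCast_coeff]
  · simp [hP]

theorem det_corr {I : Type*} [Fintype I] [DecidableEq I] (a : I → I → ZMod q → ℤ) (n : ℤ)
    (c : I → I → ℤ)
    (h : ∀ i i' j, ∑ b, ∑ s, a i b (j + s) * a i' b s = (if i = i' ∧ j = 0 then n else 0) + c i i') :
    ∃ (F : ZMod q → ℤ) (μ : ℤ),
      ∀ j, ∑ i, F (j + i) * F i = (if j = 0 then n ^ (Fintype.card I) else 0) + μ := by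
  set M : Matrix I I (AddMonoidAlgebra ℤ (ZMod q)) := fun i b => A (a i b) with hM
  set π := Ideal.Quotient.mk (Ideal.span {(T : AddMonoidAlgebra ℤ (ZMod q))}) with hπ
  have hprod : M * (rev.mapMatrix M).transpose =
      fun i i' => (if i = i' then (n : AddMonoidAlgebra ℤ (ZMod q)) else 0) +
        (c i i' : AddMonoidAlgebra ℤ (ZMod q)) * T := by
    ext1 i i'
    rw [Matrix.mul_apply]
    simp only [Matrix.transpose_apply, RingHom.mapMatrix_apply, Matrix.map_apply]
    simp only [hM, rev_A, A_mul_rev]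
    rw [← A_delta n (c i i') (i = i')]
    simp only [← h]
    unfold A
    rw [sum_comm]
    refine sum_congr rfl fun j _ => ?_
    rw [← AddMonoidAlgebra.singleAddHom_apply]
    simp only [← AddMonoidAlgebra.singleAddHom_apply]
    rw [map_sum]
  have hdet : π (M.det * rev M.det) = π ((n : AddMonoidAlgebra ℤ (ZMod q)) ^ (Fintype.card I)) := by
    have h1 : M.det * rev M.det = (M * (rev.mapMatrix M).transpose).det := by
      rw [Matrix.det_mul, Matrix.det_transpose, RingHom.map_det]
    rw [h1, hprod, RingHom.map_det]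
    have h2 : π.mapMatrix (fun i i' => (if i = i' then (n : AddMonoidAlgebra ℤ (ZMod q)) else 0) +
        (c i i' : AddMonoidAlgebra ℤ (ZMod q)) * T) = Matrix.diagonal (fun _ => π n) := by
      ext1 i i'
      rw [RingHom.mapMatrix_apply, Matrix.map_apply, map_add, map_mul]
      have h3 : π T = 0 := Ideal.Quotient.eq_zero_iff_mem.mpr (Ideal.subset_span rfl)
      rw [h3, mul_zero, add_zero, Matrix.diagonal_apply]
      split_ifs <;> simp
    rw [h2, Matrix.det_diagonal, prod_const, card_univ, map_pow]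
  rw [Ideal.Quotient.eq, Ideal.mem_span_singleton'] at hdet
  obtain ⟨s, hs⟩ := hdet
  refine ⟨fun i => M.det.coeff i, ∑ i, s.coeff i, fun j => ?_⟩
  have h4 : M.det * rev M.det = A (fun j => ∑ i, M.det.coeff (j + i) * M.det.coeff i) := by
    rw [← A_mul_rev (fun i => M.det.coeff i) (fun i => M.det.coeff i), A_surj]
    congr 1
    conv_lhs => rw [← A_surj M.det]
    rw [rev_A]
  have h5 : M.det * rev M.det = (n : AddMonoidAlgebra ℤ (ZMod q)) ^ (Fintype.card I) + s * T := by
    rw [hs]; ring
  have h6 := congrArg (fun x : AddMonoidAlgebra ℤ (ZMod q) => x.coeff j) (h4.symm.trans h5)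
  simp only [A_coeff, AddMonoidAlgebra.coeff_add, Finsupp.add_apply, mul_T_coeff] at h6
  rw [h6]
  congr 1
  rw [← Int.cast_pow, intCast_coeff]

end Pool.Agent.H96.Sing
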