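import Mathlib

/-!
Parametrisation of the nontrivial orbits of a permutation of prime order.
-/

namespace Pool.Agent.H96.Sing

open Finset

variable {X : Type*} {q : ℕ} [hq : Fact q.Prime]

lemma pow_add_card (σ : Equiv.Perm X) (h : σ^q = 1) (m n : ℕ) (hmn : (m : ZMod q) = n) :
    σ^m = σ^n := by
  rw [ZMod.natCast_eq_natCast_iff] at hmn
  rcases le_total m n with hle | hle
  · obtain ⟨c, hc⟩ := (Nat.modEq_iff_dvd' hle).mp hmn
    have : n = m + q * c := by omega
    rw [this, pow_add, pow_mul, h, one_pow, mul_one]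
  · obtain ⟨c, hc⟩ := (Nat.modEq_iff_dvd' hle).mp hmn.symm
    have : m = n + q * c := by omega
    rw [this, pow_add, pow_mul, h, one_pow, mul_one]

/-- the power of a permutation of order `q` with exponent in `ZMod q` -/
def pw (q : ℕ) (σ : Equiv.Perm X) (s : ZMod q) : Equiv.Perm X := σ^(s.val)

lemma pw_natCast (σ : Equiv.Perm X) (h : σ^q = 1) (n : ℕ) : pw q σ (n : ZMod q) = σ^n := by
  unfold pw
  apply pow_add_card σ h
  simp

lemma pw_add (σ : Equiv.Perm X) (h : σ^q = 1) (s t : ZMod q) :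
    pw q σ (s + t) = pw q σ s * pw q σ t := by
  have h1 : s + t = ((s.val + t.val : ℕ) : ZMod q) := by simp
  rw [h1, pw_natCast σ h, pow_add]
  rfl

lemma pw_zero (σ : Equiv.Perm X) : pw q σ 0 = 1 := by
  unfold pw; simp

lemma pw_one (σ : Equiv.Perm X) (h : σ^q = 1) : pw q σ 1 = σ := by
  have := pw_natCast (q := q) σ h 1
  simpa using this

lemma pw_fixed (σ : Equiv.Perm X) (h : σ^q = 1) {x : X} (hx : σ x ≠ x) {s : ZMod q}
    (hs : pw q σ s x = x) : s = 0 := by
  by_contra h0
  have h1 : ∀ m : ℕ, pw q σ (m * s) x = x := by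
    intro m
    induction m with
    | zero => simp [pw_zero]
    | succ m ih =>
      have : ((m + 1 : ℕ) : ZMod q) * s = s + m * s := by push_cast; ring
      rw [this, pw_add σ h, Equiv.Perm.mul_apply, ih, hs]
  have h2 := h1 (s⁻¹).val
  have h3 : (((s⁻¹).val : ℕ) : ZMod q) * s = 1 := by
    rw [ZMod.natCast_zmod_val]
    exact inv_mul_cancel₀ h0
  rw [h3, pw_one σ h] at h2
  exact hx h2

lemma pw_nonfixed (σ : Equiv.Perm X) (h : σ^q = 1) {x : X} (hx : σ x ≠ x) (s : ZMod q) :
    σ (pw q σ s x) ≠ pw q σ s x := by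
  intro hc
  apply hx
  have h1 : σ (pw q σ s x) = pw q σ s (σ x) := by
    conv_lhs => rw [← pw_one σ h]
    conv_rhs => rw [← pw_one σ h]
    simp only [pw_one σ h]
    conv_lhs => rw [show σ (pw q σ s x) = (pw q σ 1) (pw q σ s x) by rw [pw_one σ h]]
    conv_rhs => rw [show pw q σ s (σ x) = pw q σ s (pw q σ 1 x) by rw [pw_one σ h]]
    rw [← Equiv.Perm.mul_apply, ← Equiv.Perm.mul_apply, ← pw_add σ h, ← pw_add σ h, add_comm]
  rw [h1] at hc
  exact (pw q σ s).injective hc

/-- the relation of being in the same orbit -/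
def orel (σ : Equiv.Perm X) (h : σ^q = 1) : Setoid {x : X // σ x ≠ x} where
  r x y := ∃ s : ZMod q, pw q σ s x.1 = y.1
  iseqv := {
    refl := fun x => ⟨0, by simp [pw_zero]⟩
    symm := by
      rintro x y ⟨s, hs⟩
      refine ⟨-s, ?_⟩
      rw [← hs, ← Equiv.Perm.mul_apply, ← pw_add σ h]
      simp [pw_zero]
    trans := by
      rintro x y z ⟨s, hs⟩ ⟨t, ht⟩
      refine ⟨t + s, ?_⟩
      rw [pw_add σ h, Equiv.Perm.mul_apply, hs, ht] }

theorem exists_param {X : Type} [Finite X] (σ : Equiv.Perm X) (h : σ^q = 1) :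
    ∃ (I : Type) (_ : Fintype I) (e : I × ZMod q ≃ {x : X // σ x ≠ x}),
      ∀ i s, σ (e (i, s)).1 = (e (i, s + 1)).1 := by
  classical
  let f : Quotient (orel σ h) × ZMod q → {x : X // σ x ≠ x} :=
    fun z => ⟨pw q σ z.2 z.1.out.1, pw_nonfixed σ h z.1.out.2 z.2⟩
  have hf : Function.Bijective f := by
    constructor
    · rintro ⟨i, s⟩ ⟨j, t⟩ hij
      have h1 : pw q σ s i.out.1 = pw q σ t j.out.1 := congrArg Subtype.val hij
      have h2 : (orel σ h).r i.out j.out := by
        refine ⟨-t + s, ?_⟩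
        rw [pw_add σ h, Equiv.Perm.mul_apply, h1, ← Equiv.Perm.mul_apply, ← pw_add σ h]
        simp [pw_zero]
      have h3 : i = j := by
        rw [← Quotient.out_eq i, ← Quotient.out_eq j]
        exact Quotient.sound h2
      subst h3
      have h4 : pw q σ (-t + s) i.out.1 = i.out.1 := by
        rw [pw_add σ h, Equiv.Perm.mul_apply, h1, ← Equiv.Perm.mul_apply, ← pw_add σ h]
        simp [pw_zero]
      have h5 := pw_fixed σ h i.out.2 h4
      have h6 : s = t := by linear_combination h5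
      rw [h6]
    · intro x
      have h1 : (orel σ h).r (Quotient.mk (orel σ h) x).out x := Quotient.exact (Quotient.out_eq _)
      obtain ⟨s, hs⟩ := h1
      exact ⟨(Quotient.mk (orel σ h) x, s), Subtype.ext hs⟩
  have : Finite (Quotient (orel σ h)) := Quotient.finite _
  refine ⟨Quotient (orel σ h), Fintype.ofFinite _, Equiv.ofBijective f hf, fun i s => ?_⟩
  change σ (pw q σ s i.out.1) = pw q σ (s + 1) i.out.1
  rw [add_comm, pw_add σ h, Equiv.Perm.mul_apply, pw_one σ h]

end Pool.Agent.H96.Sing
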