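import Mathlib
import Pool.Agent.H96.Sing.Defs
import Pool.Agent.H96.Sing.Mann
import Pool.Agent.H96.Sing.Det
import Pool.Agent.H96.Sing.Orbit

/-!
Symmetric designs and their automorphisms of prime order.
-/

namespace Pool.Agent.H96.Sing

open Finset

variable {v k l : ℕ} {B : Fin v → Finset (Fin v)}

/-- incidence matrix -/
def inc (B : Fin v → Finset (Fin v)) : Matrix (Fin v) (Fin v) ℚ := fun x j => if x ∈ B j then 1 else 0

lemma repl_eq (h : IsSymmetricDesign v k l B) : ∀ x, (univ.filter (fun j => x ∈ B j)).card = k := by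
  obtain ⟨hkv, r, h1, h2, h3⟩ := h
  have hv : 0 < v := by omega
  have hr : r = k := by
    have e1 : ∑ j, (B j).card = ∑ x, (univ.filter (fun j => x ∈ B j)).card := by
      have := Finset.sum_card_bipartiteAbove_eq_sum_card_bipartiteBelow
        (s := (univ : Finset (Fin v))) (t := (univ : Finset (Fin v))) (fun x j => x ∈ B j)
      simp only [Finset.bipartiteAbove, Finset.bipartiteBelow] at this
      rw [this]
      refine sum_congr rfl fun j _ => ?_
      congr 1
      ext x; simp
    simp only [h1, h2, sum_const, card_univ, Fintype.card_fin, smul_eq_mul] at e1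
    exact (Nat.eq_of_mul_eq_mul_left hv e1).symm
  intro x; rw [h2 x, hr]

lemma pair_count (h : IsSymmetricDesign v k l B) (x y : Fin v) :
    (univ.filter (fun j => x ∈ B j ∧ y ∈ B j)).card = if x = y then k else l := by
  split_ifs with hxy
  · subst hxy
    simp only [and_self]
    exact repl_eq h x
  · obtain ⟨hkv, r, h1, h2, h3⟩ := h
    exact h3 x y hxy

lemma inc_mul_transpose (h : IsSymmetricDesign v k l B) (x y : Fin v) :
    (inc B * (inc B).transpose) x y = if x = y then (k:ℚ) else l := by
  rw [Matrix.mul_apply]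
  have h1 : ∀ j, inc B x j * (inc B).transpose j y = if x ∈ B j ∧ y ∈ B j then (1:ℚ) else 0 := by
    intro j
    simp only [inc, Matrix.transpose_apply]
    by_cases h1 : x ∈ B j <;> by_cases h2 : y ∈ B j <;> simp [h1, h2]
  simp only [h1]
  rw [sum_boole, pair_count h]
  split_ifs <;> rfl

lemma inc_col (h : IsSymmetricDesign v k l B) (j : Fin v) : ∑ x, inc B x j = (k:ℚ) := by
  simp only [inc]
  rw [sum_boole]
  obtain ⟨hkv, r, h1, h2, h3⟩ := h
  rw [← h1 j]
  congr 2
  ext x; simp

lemma inc_row (h : IsSymmetricDesign v k l B) (x : Fin v) : ∑ j, inc B x j = (k:ℚ) := by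
  simp only [inc]
  rw [sum_boole, repl_eq h]

/-- the inverse of the incidence matrix -/
lemma inc_inv (h : IsSymmetricDesign v k l B) (hl : l < k) :
    ∃ N' : Matrix (Fin v) (Fin v) ℚ, inc B * N' = 1 ∧ N' * inc B = 1 ∧
      ∀ j x, N' j x = ((inc B x j) - l / k) / (k - l) := by
  have hk : (k:ℚ) ≠ 0 := by
    have : k ≠ 0 := by omega
    exact_mod_cast this
  have hkl : (k:ℚ) - l ≠ 0 := by
    have : (l:ℚ) < k := by exact_mod_cast hl
    exact (sub_pos.mpr this).ne'
  let N' : Matrix (Fin v) (Fin v) ℚ := Matrix.of fun j x => ((inc B x j) - l / k) / (k - l)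
  have key : inc B * N' = 1 := by
    ext x y
    rw [Matrix.mul_apply]
    simp only [N', Matrix.of_apply]
    have h1 : ∀ j, inc B x j * (((inc B y j) - l / k) / (k - l)) =
        (1 / (k - l)) * (inc B x j * (inc B).transpose j y) - (l / k / (k - l)) * inc B x j := by
      intro j
      rw [Matrix.transpose_apply]
      field_simp
    simp only [h1]
    rw [sum_sub_distrib, ← mul_sum, ← mul_sum, inc_row h, ← Matrix.mul_apply, inc_mul_transpose h,
      Matrix.one_apply]
    split_ifs
    · field_simp
    · field_simp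
      ring
  exact ⟨N', key, mul_eq_one_comm.mp key, fun _ _ => rfl⟩

lemma block_inter (h : IsSymmetricDesign v k l B) (hl : l < k) (i j : Fin v) :
    ∑ x, inc B x i * inc B x j = if i = j then (k:ℚ) else l := by
  obtain ⟨N', h1, h2, h3⟩ := inc_inv h hl
  have hk : (k:ℚ) ≠ 0 := by
    have : k ≠ 0 := by omega
    exact_mod_cast this
  have hkl : (k:ℚ) - l ≠ 0 := by
    have : (l:ℚ) < k := by exact_mod_cast hl
    exact (sub_pos.mpr this).ne'
  have h4 : (N' * inc B) i j = if i = j then 1 else 0 := by rw [h2, Matrix.one_apply]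
  rw [Matrix.mul_apply] at h4
  have h5 : ∀ x, N' i x * inc B x j =
      (1 / (k - l)) * (inc B x i * inc B x j) - (l / k / (k - l)) * inc B x j := by
    intro x
    rw [h3]
    field_simp
  simp only [h5] at h4
  rw [sum_sub_distrib, ← mul_sum, ← mul_sum, inc_col h] at h4
  have h6 : ∑ x, inc B x i * inc B x j = (k - l) * (if i = j then 1 else 0) + l := by
    rw [← h4]
    field_simp
    ring
  rw [h6]
  split_ifs <;> ring

lemma block_inj (h : IsSymmetricDesign v k l B) (hl : l < k) : Function.Injective B := by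
  intro i j hij
  by_contra hne
  have h1 := block_inter h hl i j
  have h2 := block_inter h hl i i
  rw [if_neg hne] at h1
  rw [if_pos rfl] at h2
  have h3 : ∀ x, inc B x j = inc B x i := by
    intro x; simp only [inc, hij]
  simp only [h3] at h1
  rw [h1] at h2
  have : l = k := by exact_mod_cast h2
  omega

lemma fixed_eq (h : IsSymmetricDesign v k l B) (hl : l < k) (s t : Equiv.Perm (Fin v))
    (hst : ∀ j x, s x ∈ B (t j) ↔ x ∈ B j) :
    (univ.filter (fun x => s x = x)).card = (univ.filter (fun j => t j = j)).card := by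
  obtain ⟨N', h1, h2, h3⟩ := inc_inv h hl
  let P : Matrix (Fin v) (Fin v) ℚ := fun x y => if s x = y then 1 else 0
  let Q : Matrix (Fin v) (Fin v) ℚ := fun i j => if t i = j then 1 else 0
  have hPQ : P * inc B = inc B * Q := by
    ext x j
    rw [Matrix.mul_apply, Matrix.mul_apply]
    have e1 : ∑ y, P x y * inc B y j = inc B (s x) j := by
      simp [P]
    have e2 : ∑ i, inc B x i * Q i j = inc B x (t.symm j) := by
      rw [Fintype.sum_eq_single (t.symm j)]
      · simp [Q]
      · intro i hi
        have : t i ≠ j := fun hc => hi (by rw [← hc]; simp)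
        simp [Q, this]
    rw [e1, e2]
    simp only [inc]
    have := hst (t.symm j) x
    rw [Equiv.apply_symm_apply] at this
    simp only [this]
  have hP : P = inc B * Q * N' := by
    rw [← hPQ, Matrix.mul_assoc, h1, Matrix.mul_one]
  have htr : P.trace = Q.trace := by
    rw [hP, Matrix.trace_mul_comm, ← Matrix.mul_assoc, h2, Matrix.one_mul]
  have e3 : P.trace = ((univ.filter (fun x => s x = x)).card : ℚ) := by
    simp [Matrix.trace, P]
  have e4 : Q.trace = ((univ.filter (fun j => t j = j)).card : ℚ) := by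
    simp [Matrix.trace, Q]
  rw [e3, e4] at htr
  exact_mod_cast htr

lemma pow_apply_iff (s t : Equiv.Perm (Fin v)) (hst : ∀ j x, s x ∈ B (t j) ↔ x ∈ B j) (m : ℕ) :
    ∀ j x, (s^m) x ∈ B ((t^m) j) ↔ x ∈ B j := by
  induction m with
  | zero => intro j x; simp
  | succ m ih =>
    intro j x
    rw [pow_succ', pow_succ', Equiv.Perm.mul_apply, Equiv.Perm.mul_apply, hst, ih]

lemma pow_eq_one (h : IsSymmetricDesign v k l B) (hl : l < k) (s t : Equiv.Perm (Fin v))
    (hst : ∀ j x, s x ∈ B (t j) ↔ x ∈ B j) (q : ℕ) (hs : s^q = 1) : t^q = 1 := by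
  ext1 j
  apply block_inj h hl
  ext x
  have := pow_apply_iff s t hst q j x
  rw [hs] at this
  simpa using this

end Pool.Agent.H96.Sing
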