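import Mathlib
import Pool.Agent.H96.Sing.Design

/-!
The condition on the prime divisors of the order coming from an automorphism of prime order.
-/

namespace Pool.Agent.H96.Sing

open Finset

variable {v k l : ℕ} {B : Fin v → Finset (Fin v)}

theorem key (h : IsSymmetricDesign v k l B) (hl : l < k) (s : Equiv.Perm (Fin v)) (hs : IsAut B s)
    (q : ℕ) [hq : Fact q.Prime] (h2q : 2 < q) (hsq : s^q = 1) (c : ℕ) (hc : Odd c)
    (hfix : (univ.filter (fun x => s x ≠ x)).card = c * q) (p : ℕ) [hp : Fact p.Prime]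
    (hpq : p ≠ q) (m : ℕ) (hm : (p:ZMod q)^m = -1) : Even (padicValNat p (k - l)) := by
  classical
  obtain ⟨t, hst⟩ := hs
  have htq : t^q = 1 := pow_eq_one h hl s t hst q hsq
  have hcard := fixed_eq h hl s t hst
  obtain ⟨I, _, e, he⟩ := exists_param (q := q) s hsq
  obtain ⟨J, _, e', he'⟩ := exists_param (q := q) t htq
  have hq0 : 0 < q := hq.out.pos
  have cI : Fintype.card I = c := by
    have h1 := Fintype.card_congr e
    rw [Fintype.card_prod, ZMod.card, Fintype.card_subtype, hfix] at h1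
    exact Nat.eq_of_mul_eq_mul_right hq0 h1
  have cJ : Fintype.card J = c := by
    have h1 := Fintype.card_congr e'
    rw [Fintype.card_prod, ZMod.card, Fintype.card_subtype] at h1
    have h2 : (univ.filter (fun j => t j ≠ j)).card = (univ.filter (fun x => s x ≠ x)).card := by
      have h3 := card_filter_add_card_filter_not (s := (univ : Finset (Fin v))) (fun x => s x = x)
      have h4 := card_filter_add_card_filter_not (s := (univ : Finset (Fin v))) (fun x => t x = x)
      simp only [ne_eq]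
      omega
    rw [h2, hfix] at h1
    exact Nat.eq_of_mul_eq_mul_right hq0 h1
  obtain ⟨w⟩ : Nonempty (I ≃ J) := ⟨Fintype.equivOfCardEq (cI.trans cJ.symm)⟩
  -- shifting
  have shift1 : ∀ (n : ℕ) i (x : ZMod q) b (y : ZMod q),
      (e (i, x + n)).1 ∈ B (e' (b, y + n)).1 ↔ (e (i, x)).1 ∈ B (e' (b, y)).1 := by
    intro n
    induction n with
    | zero => intro i x b y; simp
    | succ n ih =>
      intro i x b y
      have h1 : x + ((n + 1 : ℕ) : ZMod q) = (x + n) + 1 := by push_cast; ring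
      have h2 : y + ((n + 1 : ℕ) : ZMod q) = (y + n) + 1 := by push_cast; ring
      rw [h1, h2, ← he, ← he', hst, ih]
  have shift : ∀ (u : ZMod q) i (x : ZMod q) b (y : ZMod q),
      (e (i, x + u)).1 ∈ B (e' (b, y + u)).1 ↔ (e (i, x)).1 ∈ B (e' (b, y)).1 := by
    intro u i x b y
    have := shift1 u.val i x b y
    rwa [ZMod.natCast_zmod_val] at this
  have shiftf : ∀ (u : ZMod q) i (j : Fin v), t j = j →
      ((e (i, u)).1 ∈ B j ↔ (e (i, 0)).1 ∈ B j) := by
    have h1 : ∀ (n : ℕ) i (j : Fin v), t j = j →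
        ((e (i, (n : ZMod q))).1 ∈ B j ↔ (e (i, 0)).1 ∈ B j) := by
      intro n
      induction n with
      | zero => intro i j _; simp
      | succ n ih =>
        intro i j hj
        rw [← ih i j hj]
        push_cast
        rw [← he]
        conv_lhs => rw [← hj]
        exact hst j _
    intro u i j hj
    have := h1 u.val i j hj
    rwa [ZMod.natCast_zmod_val] at this
  let a : I → I → ZMod q → ℤ := fun i b x => if (e (i, x)).1 ∈ B (e' (w b, 0)).1 then 1 else 0
  let cc : I → I → ℤ := fun i i' => l -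
    ((univ.filter (fun j => t j = j)).filter
      (fun j => (e (i, 0)).1 ∈ B j ∧ (e (i', 0)).1 ∈ B j)).card
  obtain ⟨F, μ, hF⟩ := det_corr a ((k:ℤ) - l) cc (by
    intro i i' j
    have h1 : ∀ b x, a i b (j + x) * a i' b x =
        if (e (i, j)).1 ∈ B (e' (w b, -x)).1 ∧ (e (i', 0)).1 ∈ B (e' (w b, -x)).1 then 1 else 0 := by
      intro b x
      have e1 := shift x i j (w b) (-x)
      have e2 := shift x i' 0 (w b) (-x)
      rw [neg_add_cancel] at e1 e2
      rw [zero_add] at e2
      simp only [a, e1, e2]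
      by_cases h1 : (e (i, j)).1 ∈ B (e' (w b, -x)).1 <;>
        by_cases h2 : (e (i', 0)).1 ∈ B (e' (w b, -x)).1 <;> simp [h1, h2]
    simp only [h1]
    have h2 : ∑ b : I, ∑ x : ZMod q, (if (e (i, j)).1 ∈ B (e' (w b, -x)).1 ∧
        (e (i', 0)).1 ∈ B (e' (w b, -x)).1 then (1:ℤ) else 0) =
        ∑ y : {y : Fin v // t y ≠ y}, (if (e (i, j)).1 ∈ B y.1 ∧
        (e (i', 0)).1 ∈ B y.1 then (1:ℤ) else 0) := by
      rw [← Fintype.sum_prod_type']
      refine Fintype.sum_equiv ((Equiv.prodCongr w (Equiv.neg _)).trans e') _ _ fun x => ?_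
      rfl
    rw [h2]
    have h3 : ∑ y : {y : Fin v // t y ≠ y}, (if (e (i, j)).1 ∈ B y.1 ∧
        (e (i', 0)).1 ∈ B y.1 then (1:ℤ) else 0) =
        ((univ.filter (fun y => (e (i, j)).1 ∈ B y ∧ (e (i', 0)).1 ∈ B y)).card : ℤ) -
        (((univ.filter (fun j => t j = j)).filter
      (fun y => (e (i, j)).1 ∈ B y ∧ (e (i', 0)).1 ∈ B y)).card : ℤ) := by
      rw [← Finset.sum_subtype (s := univ.filter (fun y => t y ≠ y)) (by intro x; simp)
        (f := fun y => if (e (i, j)).1 ∈ B y ∧ (e (i', 0)).1 ∈ B y then (1:ℤ) else 0)]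
      rw [← sum_boole, ← sum_boole]
      rw [← sum_filter_add_sum_filter_not univ (fun y => t y = y)
        (fun y => if (e (i, j)).1 ∈ B y ∧ (e (i', 0)).1 ∈ B y then (1:ℤ) else 0)]
      simp only [ne_eq]
      ring
    rw [h3, pair_count h]
    have h4 : (univ.filter (fun j => t j = j)).filter
        (fun y => (e (i, j)).1 ∈ B y ∧ (e (i', 0)).1 ∈ B y) =
        (univ.filter (fun j => t j = j)).filter
        (fun y => (e (i, 0)).1 ∈ B y ∧ (e (i', 0)).1 ∈ B y) := by
      ext y
      simp only [mem_filter, mem_univ, true_and]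
      constructor
      · rintro ⟨hy, h5, h6⟩
        exact ⟨hy, (shiftf j i y hy).mp h5, h6⟩
      · rintro ⟨hy, h5, h6⟩
        exact ⟨hy, (shiftf j i y hy).mpr h5, h6⟩
    rw [h4]
    have h5 : ((e (i, j)).1 = (e (i', 0)).1) ↔ (i = i' ∧ j = 0) := by
      rw [← Subtype.ext_iff, e.injective.eq_iff, Prod.mk.injEq]
    simp only [h5, cc]
    split_ifs <;> push_cast <;> ring)
  have hkl : ((k:ℤ) - l) = ((k - l : ℕ) : ℤ) := by push_cast [hl.le]; ring
  have hN : ((k:ℤ) - l) ^ (Fintype.card I) ≠ 0 := by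
    apply pow_ne_zero
    rw [hkl]
    have : k - l ≠ 0 := by omega
    exact_mod_cast this
  have h7 := even_val h2q hpq m hm _ _ μ F hN rfl hF
  rw [hkl, cI] at h7
  have h8 : padicValInt p (((k - l : ℕ) : ℤ) ^ c) = c * padicValNat p (k - l) := by
    rw [← Int.natCast_pow, padicValInt.of_nat, padicValNat.pow]
  rw [h8] at h7
  exact (Nat.even_mul.mp h7).resolve_left (by
    rw [Nat.not_even_iff_odd]; exact hc)

end Pool.Agent.H96.Sing
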