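import Mathlib
import Pool.Agent.H12.PrimeClass
import Pool.Agent.H12.NonSquare

/-!
Primes splitting a quadratic polynomial, and quadratic reciprocity.
-/

namespace Pool.Agent.H96.Sing

open Finset Pool.Agent.H12 NumberTheorySymbols

/-- primes `q = 1 mod 4` modulo which `k (k-1) + l` has a root have divergent reciprocal sum -/
lemma exists_split_primes (l : ℕ) (hl : 0 < l) (C : ℝ) :
    ∃ Q : Finset ℕ, (∀ q ∈ Q, q.Prime ∧ 2 < q ∧ ¬ q ∣ l ∧
      ∃ r < q, ∀ k, k % q = r → q ∣ k * (k - 1) + l) ∧ C < ∑ q ∈ Q, (1:ℝ)/q := by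
  set M := 4 * (4 * l - 1) with hM
  have hM0 : M ≠ 0 := by omega
  have : NeZero M := ⟨hM0⟩
  have hns := not_summable_prime_class (q := M) (a := 1) isUnit_one
  obtain ⟨u, hu⟩ : ∃ u : Finset ℕ, C < ∑ n ∈ u, pc (1 : ZMod M) n / n := by
    by_contra hcon
    push Not at hcon
    exact hns (summable_of_sum_le (fun n => by have := pc_nonneg (1 : ZMod M) n; positivity)
      hcon)
  classical
  refine ⟨u.filter (fun n => n.Prime ∧ (n : ZMod M) = 1), ?_, ?_⟩
  · intro q hq
    rw [mem_filter] at hq
    obtain ⟨-, hqp, hq1⟩ := hq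
    have hmod : q ≡ 1 [MOD M] := by
      rw [← ZMod.natCast_eq_natCast_iff]; simpa using hq1
    have hqM : M < q := by
      have h1 := (Nat.modEq_iff_dvd' hqp.one_lt.le).mp hmod.symm
      have h2 := Nat.le_of_dvd (by have := hqp.one_lt; omega) h1
      have := hqp.one_lt
      omega
    have hq2 : 2 < q := by omega
    have : Fact q.Prime := ⟨hqp⟩
    refine ⟨hqp, hq2, fun hd => ?_, ?_⟩
    · have := Nat.le_of_dvd hl hd
      omega
    · have hodd : Odd q := hqp.odd_of_ne_two (by omega)
      have hD : (1 - 4 * (l:ℤ)).natAbs = 4 * l - 1 := by omega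
      have hJ : J(1 - 4 * (l:ℤ) | q) = 1 := by
        rw [jacobiSym.mod_right _ hodd, hD, ← hM]
        have h1 : q % M = 1 % M := hmod
        rw [h1, hM, ← hD, ← jacobiSym.mod_right _ odd_one]
        simp
      rw [← jacobiSym.legendreSym.to_jacobiSym] at hJ
      have hD0 : ((1 - 4 * (l:ℤ) : ℤ) : ZMod q) ≠ 0 := by
        intro h0
        rw [(legendreSym.eq_zero_iff q _).mpr h0] at hJ
        norm_num at hJ
      obtain ⟨x, hx⟩ := (legendreSym.eq_one_iff q hD0).mp hJ
      have h20 : (2 : ZMod q) ≠ 0 := by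
        intro h
        have h3 : ((2:ℕ) : ZMod q) = 0 := by exact_mod_cast h
        rw [ZMod.natCast_eq_zero_iff] at h3
        have := Nat.le_of_dvd (by norm_num) h3
        omega
      refine ⟨((1 + x) / 2 : ZMod q).val, ZMod.val_lt _, fun k hk => ?_⟩
      have hk2 : (k : ZMod q) = (1 + x) / 2 := by
        have h1 : ((k % q : ℕ) : ZMod q) = (k : ZMod q) := by simp
        rw [← h1, hk, ZMod.natCast_zmod_val]
      rw [← ZMod.natCast_eq_zero_iff]
      rcases Nat.eq_zero_or_pos k with h0 | h0
      · subst h0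
        have h4 : x = -1 := by
          rw [Nat.cast_zero, eq_comm, div_eq_zero_iff] at hk2
          have := hk2.resolve_right h20
          linear_combination this
        push_cast at hx ⊢
        rw [h4] at hx
        have h5 : (4:ZMod q) * l = 0 := by linear_combination -hx
        have h40 : (4:ZMod q) ≠ 0 := by
          have : (4:ZMod q) = 2 * 2 := by norm_num
          rw [this]; exact mul_ne_zero h20 h20
        have := (mul_eq_zero.mp h5).resolve_left h40
        simpa using this
      · rw [Nat.cast_add, Nat.cast_mul, Nat.cast_sub (by omega : 1 ≤ k), Nat.cast_one, hk2]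
        push_cast at hx
        field_simp
        linear_combination -hx
  · refine lt_of_lt_of_le hu (le_of_eq ?_)
    rw [sum_filter]
    refine sum_congr rfl fun n _ => ?_
    unfold pc
    split_ifs <;> simp

/-- quadratic reciprocity in the form needed -/
lemma exists_disc (q : ℕ) (hq : q.Prime) (hq2 : q ≠ 2) :
    ∃ D : ℤ, ¬ IsSquare D ∧ ∀ p : ℕ, p.Prime → ¬ IsSquare (D : ZMod p) →
      p ≠ q ∧ ¬ IsSquare (p : ZMod q) := by
  have : Fact q.Prime := ⟨hq⟩
  have hnsq : ¬ IsSquare (q : ℤ) := by
    rintro ⟨a, ha⟩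
    exact (Nat.prime_iff_prime_int.mp hq).irreducible.not_isSquare ⟨a, ha⟩
  have hp2 : ∀ (D : ℤ) (p : ℕ), ¬ IsSquare (D : ZMod p) → p ≠ 2 := by
    rintro D p h rfl
    apply h
    have : ∀ x : ZMod 2, IsSquare x := by decide
    exact this _
  rcases hq.eq_two_or_odd with h | hodd
  · exact absurd h hq2
  have h4 : q % 4 = 1 ∨ q % 4 = 3 := by omega
  rcases h4 with h4 | h4
  · refine ⟨q, hnsq, fun p hp hns => ?_⟩
    have : Fact p.Prime := ⟨hp⟩
    have hp2' := hp2 _ p hns
    refine ⟨?_, fun hsq => hns ?_⟩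
    · rintro rfl
      apply hns
      simp
    · have := (ZMod.exists_sq_eq_prime_iff_of_mod_four_eq_one (p := q) (q := p) h4 hp2').mp hsq
      simpa using this
  · refine ⟨-q, ?_, fun p hp hns => ?_⟩
    · rintro ⟨a, ha⟩
      have : (0:ℤ) < q := by exact_mod_cast hq.pos
      nlinarith [mul_self_nonneg a]
    have : Fact p.Prime := ⟨hp⟩
    have hp2' := hp2 _ p hns
    have hpq : p ≠ q := by
      rintro rfl
      apply hns
      simp
    refine ⟨hpq, fun hsq => hns ?_⟩
    push_cast
    have h5 : p % 4 = 1 ∨ p % 4 = 3 := by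
      have := hp.eq_two_or_odd
      omega
    rcases h5 with h5 | h5
    · have h6 := (ZMod.exists_sq_eq_prime_iff_of_mod_four_eq_one (p := p) (q := q) h5 hq2).mpr hsq
      have h7 : IsSquare (-1 : ZMod p) := ZMod.exists_sq_eq_neg_one_iff.mpr (by omega)
      have := h7.mul h6
      rwa [neg_one_mul] at this
    · have h6 := (ZMod.exists_sq_eq_prime_iff_of_mod_four_eq_three (p := q) (q := p) h4 h5 hpq.symm).mp hsq
      have h7 : ¬ IsSquare (-1 : ZMod p) := by
        rw [ZMod.exists_sq_eq_neg_one_iff]; omega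
      have e1 : legendreSym p (-1) = -1 := by
        rw [legendreSym.eq_neg_one_iff]; push_cast; exact h7
      have e2 : legendreSym p (q:ℤ) = -1 := by
        rw [legendreSym.eq_neg_one_iff]; push_cast; exact h6
      have e3 : legendreSym p (-1 * (q:ℤ)) = 1 := by
        rw [legendreSym.mul, e1, e2]; norm_num
      have hq0 : ((-1 * (q:ℤ) : ℤ) : ZMod p) ≠ 0 := by
        intro h0
        rw [(legendreSym.eq_zero_iff p _).mpr h0] at e3
        norm_num at e3
      have := (legendreSym.eq_one_iff p hq0).mp e3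
      push_cast at this
      rwa [neg_one_mul] at this

end Pool.Agent.H96.Sing
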