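import Mathlib
import Pool.Agent.H12.FixedLambda
import Pool.Agent.H12.Sieve
import Pool.Agent.H96.Sing.Key
import Pool.Agent.H96.Sing.Primes

/-!
Counting.
-/

namespace Pool.Agent.H96.Sing

open Finset Filter Topology Classical
open Pool.Agent.H12 (card_range_mod modEq_prod Qsq delta0 delta0_small count_not_exactly card_squares)

lemma adm_eq (l K : ℕ) : admissibleSizes l K = Pool.Agent.H12.admissibleSizes l K := rfl

lemma adm_lower (l : ℕ) (hl : 0 < l) (K : ℕ) :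
    (K:ℝ)/l - 2 ≤ (admissibleSizes l K).ncard := Pool.Agent.H12.admissibleSizes_lower l hl K

/-- the number of `k < a` avoiding one residue class modulo each prime of `Q` -/
lemma count_avoid (Q : Finset ℕ) (hQ : ∀ q ∈ Q, q.Prime) (r : ℕ → ℕ) (hr : ∀ q ∈ Q, r q < q)
    (K : ℕ) :
    (((range (K+1)).filter (fun k => ∀ q ∈ Q, k % q ≠ r q)).card : ℝ) ≤
      (K + (∏ q ∈ Q, q : ℕ)) * ∏ q ∈ Q, (1 - 1/(q:ℝ)) := by
  have hM : 0 < ∏ q ∈ Q, q := prod_pos fun q hq => (hQ q hq).pos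
  have h1 := card_range_mod K (∏ q ∈ Q, q) hM (fun k => ∀ q ∈ Q, k % q ≠ r q) (by
    intro b hb q hq
    rw [Nat.mod_mod_of_dvd _ (dvd_prod_of_mem _ hq)]
    exact hb q hq)
  refine h1.trans ?_
  have h2 : ((range (∏ q ∈ Q, q)).filter (fun k => ∀ q ∈ Q, k % q ≠ r q)).card ≤
      ∏ q ∈ Q, (q - 1) := by
    have h3 : (Q.pi (fun q => (range q).erase (r q))).card = ∏ q ∈ Q, (q - 1) := by
      rw [card_pi]
      refine prod_congr rfl fun q hq => ?_
      rw [card_erase_of_mem (mem_range.mpr (hr q hq)), card_range]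
    rw [← h3]
    refine card_le_card_of_injOn (fun k q _ => k % q) ?_ ?_
    · intro k hk
      rw [mem_coe, mem_filter, mem_range] at hk
      rw [mem_coe, Finset.mem_pi]
      intro q hq
      rw [mem_erase, mem_range]
      exact ⟨hk.2 q hq, Nat.mod_lt _ (hQ q hq).pos⟩
    · intro k hk k' hk' h
      rw [mem_coe, mem_filter, mem_range] at hk hk'
      have h5 : k ≡ k' [MOD ∏ q ∈ Q, q] := modEq_prod hQ (fun q hq => by
        exact congrFun (congrFun h q) hq)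
      exact Nat.ModEq.eq_of_lt_of_lt h5 hk.1 hk'.1
  have h3 : (((range (∏ q ∈ Q, q)).filter (fun k => ∀ q ∈ Q, k % q ≠ r q)).card : ℝ) ≤
      ∏ q ∈ Q, ((q:ℝ) - 1) := by
    have h4 : ((∏ q ∈ Q, (q - 1) : ℕ) : ℝ) = ∏ q ∈ Q, ((q:ℝ) - 1) := by
      push_cast
      refine prod_congr rfl fun q hq => ?_
      rw [Nat.cast_sub (hQ q hq).one_lt.le, Nat.cast_one]
    rw [← h4]
    exact_mod_cast h2
  have h5 : ∏ q ∈ Q, ((q:ℝ) - 1) = (∏ q ∈ Q, (q:ℝ)) * ∏ q ∈ Q, (1 - 1/(q:ℝ)) := by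
    rw [← prod_mul_distrib]
    refine prod_congr rfl fun q hq => ?_
    have : (q:ℝ) ≠ 0 := by exact_mod_cast (hQ q hq).ne_zero
    field_simp
  have hM' : (0:ℝ) < ((∏ q ∈ Q, q : ℕ) : ℝ) := by exact_mod_cast hM
  have h6 : (0:ℝ) ≤ (K:ℝ) / (∏ q ∈ Q, q : ℕ) + 1 := by positivity
  calc _ ≤ (∏ q ∈ Q, ((q:ℝ) - 1)) * ((K:ℝ) / (∏ q ∈ Q, q : ℕ) + 1) :=
        mul_le_mul_of_nonneg_right h3 h6
    _ = _ := by
        rw [h5]
        push_cast
        push_cast at hM'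
        field_simp

lemma prod_small (Q : Finset ℕ) (hQ : ∀ q ∈ Q, q.Prime) :
    ∏ q ∈ Q, (1 - 1/(q:ℝ)) ≤ Real.exp (- ∑ q ∈ Q, 1/(q:ℝ)) := by
  rw [← sum_neg_distrib, Real.exp_sum]
  refine prod_le_prod (fun q hq => ?_) (fun q hq => ?_)
  · have h1 : (1:ℝ) ≤ q := by exact_mod_cast (hQ q hq).one_lt.le
    have : 1/(q:ℝ) ≤ 1 := by
      rw [div_le_one (by positivity)]; exact h1
    linarith
  · have := Real.add_one_le_exp (-(1/(q:ℝ)))
    linarith

/-- from linear bounds with small slope to the limit of the ratio -/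
lemma tendsto_ratio (l : ℕ) (hl : 0 < l) (f : ℕ → ℝ) (hf : ∀ K, 0 ≤ f K)
    (h : ∀ ε > 0, ∃ C : ℝ, ∀ K : ℕ, f K ≤ ε * K + C * (Nat.sqrt K + 1)) :
    Tendsto (fun K : ℕ => f K / ((admissibleSizes l K).ncard : ℝ)) atTop (𝓝 0) := by
  rw [Metric.tendsto_nhds]
  intro ε' hε'
  have hl' : (0:ℝ) < l := by exact_mod_cast hl
  set ε := ε' / (8 * l) with hε
  have hε0 : 0 < ε := by positivity
  obtain ⟨C, hC⟩ := h ε hε0
  obtain ⟨s0, hs0⟩ := exists_nat_gt (2 * |C| / ε)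
  filter_upwards [eventually_ge_atTop ((s0+1)^2 + 4 * l)] with K hK
  have hs : s0 + 1 ≤ Nat.sqrt K := by
    rw [Nat.le_sqrt']
    omega
  have hss : (Nat.sqrt K : ℝ) * Nat.sqrt K ≤ K := by exact_mod_cast Nat.sqrt_le K
  have hs1 : (1:ℝ) ≤ Nat.sqrt K := by
    have : 1 ≤ Nat.sqrt K := by omega
    exact_mod_cast this
  have hs2 : 2 * |C| / ε ≤ Nat.sqrt K := by
    have : (s0:ℝ) ≤ Nat.sqrt K := by exact_mod_cast (by omega : s0 ≤ Nat.sqrt K)
    linarith
  have hs3 : 2 * |C| ≤ ε * Nat.sqrt K := by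
    rw [div_le_iff₀ hε0] at hs2; linarith
  have h1 : C * (Nat.sqrt K + 1) ≤ ε * K := by
    have h2 : C * ((Nat.sqrt K:ℝ) + 1) ≤ |C| * (Nat.sqrt K + 1) :=
      mul_le_mul_of_nonneg_right (le_abs_self C) (by positivity)
    have h3 : |C| * ((Nat.sqrt K:ℝ) + 1) ≤ |C| * (2 * Nat.sqrt K) :=
      mul_le_mul_of_nonneg_left (by linarith) (abs_nonneg C)
    have h4 : |C| * (2 * (Nat.sqrt K:ℝ)) ≤ ε * Nat.sqrt K * Nat.sqrt K := by
      have := mul_le_mul_of_nonneg_right hs3 (by positivity : (0:ℝ) ≤ Nat.sqrt K)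
      linarith
    have h5 : ε * Nat.sqrt K * Nat.sqrt K ≤ ε * K := by
      rw [mul_assoc]
      exact mul_le_mul_of_nonneg_left hss hε0.le
    linarith
  have h2 := hC K
  have h3 : f K ≤ 2 * ε * K := by linarith
  have h4 := adm_lower l hl K
  have hK4 : (4:ℝ) * l ≤ K := by
    have : 4 * l ≤ K := by omega
    exact_mod_cast this
  have hK0 : (0:ℝ) < K := by linarith
  have h5 : (K:ℝ) / (2 * l) ≤ (admissibleSizes l K).ncard := by
    refine le_trans ?_ h4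
    have : (K:ℝ)/l = K / (2 * l) + K / (2*l) := by field_simp; ring
    rw [this]
    have : 2 ≤ (K:ℝ) / (2 * l) := by
      rw [le_div_iff₀ (by positivity)]; linarith
    linarith
  have h6 : (0:ℝ) < (admissibleSizes l K).ncard := lt_of_lt_of_le (by positivity) h5
  rw [Real.dist_0_eq_abs, abs_of_nonneg (div_nonneg (hf K) h6.le), div_lt_iff₀ h6]
  calc f K ≤ 2 * ε * K := h3
    _ = (ε' / 2) * (K / (2 * l)) := by rw [hε]; field_simp; ring
    _ < ε' * (K / (2 * l)) := by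
        apply mul_lt_mul_of_pos_right (by linarith)
        positivity
    _ ≤ ε' * (admissibleSizes l K).ncard := mul_le_mul_of_nonneg_left h5 hε'.le

end Pool.Agent.H96.Sing
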