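import Mathlib
import Pool.Agent.H12.BRC
import Pool.Agent.H96.Sing.Count
import Pool.Agent.H96.Sing.Group
import Pool.Agent.H24.DS.QLevel

/-!
The two density theorems.
-/

namespace Pool.Agent.H96.Sing

open Finset Filter Topology Classical
open Pool.Agent.H12 (card_range_mod modEq_prod Qsq delta0 delta0_small count_not_exactly
  card_squares SymmetricDesignExists brc_even design_lt)

variable {v k l : ℕ} {B : Fin v → Finset (Fin v)}

lemma toH12 (h : IsSymmetricDesign v k l B) : SymmetricDesignExists v k l := by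
  obtain ⟨h1, r, h2, h3, h4⟩ := h
  exact ⟨h1, r, B, h2, h3, h4⟩

/-- Euler's criterion -/
lemma pow_neg_one (q : ℕ) [hq : Fact q.Prime] (hq2 : q ≠ 2) (p : ℕ) (hpq : ¬ IsSquare (p : ZMod q)) :
    ((p : ZMod q))^(q/2) = -1 := by
  have hp0 : (p : ZMod q) ≠ 0 := by
    intro h; rw [h] at hpq; exact hpq ⟨0, by simp⟩
  have := ZMod.pow_div_two_eq_neg_one_or_one q hp0
  rcases this with h | h
  · exact absurd ((ZMod.euler_criterion q hp0).mpr h) hpq
  · exact h

/-- In a symmetric design with `v` odd having an automorphism of order dividing `q` with an even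
number of fixed points, no prime which is a non-residue modulo `q` exactly divides the order. -/
lemma no_exact (h : IsSymmetricDesign v k l B) (hl : l < k) (hv : Odd v)
    (s : Equiv.Perm (Fin v)) (hs : IsAut B s) (q : ℕ) (hq : q.Prime) (hq2 : q ≠ 2) (hsq : s^q = 1)
    (hev : Even (univ.filter (fun x => s x = x)).card)
    (p : ℕ) (hp : p.Prime) (hns : ¬ IsSquare (p : ZMod q)) (hpq : p ≠ q) :
    ¬ (p ∣ k - l ∧ ¬ p^2 ∣ k - l) := by
  rintro ⟨h1, h2⟩
  have : Fact q.Prime := ⟨hq⟩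
  have : Fact p.Prime := ⟨hp⟩
  have hdiv : ∃ c, (univ.filter (fun x => s x ≠ x)).card = c * q := by
    obtain ⟨I, _, e, he⟩ := exists_param (q := q) s hsq
    refine ⟨Fintype.card I, ?_⟩
    have h3 := Fintype.card_congr e
    rw [Fintype.card_prod, ZMod.card, Fintype.card_subtype] at h3
    exact h3.symm
  obtain ⟨c, hc⟩ := hdiv
  have htot := card_filter_add_card_filter_not (s := (univ : Finset (Fin v))) (fun x => s x = x)
  rw [card_univ, Fintype.card_fin] at htot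
  simp only [ne_eq] at hc
  have hcodd : Odd c := by
    rw [hc] at htot
    have h4 : Odd (c * q) := by
      rw [← htot, Nat.odd_add] at hv
      rw [← Nat.not_even_iff_odd]
      intro hcon
      exact (Nat.not_odd_iff_even.mpr hev) (hv.mpr hcon)
    exact (Nat.odd_mul.mp h4).1
  have hkey := key h hl s hs q (lt_of_le_of_ne hq.two_le (Ne.symm hq2)) hsq c hcodd hc p hpq
    (q/2) (pow_neg_one q hq2 p hns)
  have hval : padicValNat p (k - l) = 1 := by
    have hne : k - l ≠ 0 := by omega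
    have h5 : 1 ≤ padicValNat p (k - l) := one_le_padicValNat_of_dvd hne h1
    have h6 : padicValNat p (k - l) < 2 := by
      by_contra hcon
      push Not at hcon
      exact h2 ((padicValNat_dvd_iff_le hne).mpr hcon)
    omega
  rw [hval] at hkey
  exact absurd hkey (by decide)

lemma orderOf_dvd {q : ℕ} {s : Equiv.Perm (Fin v)} (h : orderOf s = q) : s^q = 1 := by
  rw [← h]; exact pow_orderOf_eq_one s

/-- fixed `q`: a linear bound with small slope -/
lemma even_bound (l : ℕ) (q : ℕ) (hq : q.Prime) (hq2 : q ≠ 2) (ε : ℝ) (hε : 0 < ε) :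
    ∃ C : ℝ, ∀ K : ℕ, ((evenSizes q l K).ncard : ℝ) ≤ ε * K + C * (Nat.sqrt K + 1) := by
  obtain ⟨D, hD, hDp⟩ := exists_disc q hq hq2
  obtain ⟨P, hP, hPε⟩ := delta0_small D hD ε hε
  have hδ0 : 0 ≤ delta0 P := by
    unfold delta0
    refine prod_nonneg fun p hp => ?_
    have h1 : (1:ℝ) ≤ p := by exact_mod_cast (hP p hp).1.one_lt.le
    have : ((p:ℝ)-1)/(p^2) ≤ 1 := by
      rw [div_le_one (by positivity)]; nlinarith
    linarith
  refine ⟨1 + (1 + Qsq P) * ε, fun K => ?_⟩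
  set A := (range (K+1)).filter (fun k => l < k ∧ IsSquare (k - l)) with hA
  set B₁ := ((range (K+1)).filter (fun z => ∀ p ∈ P, ¬ (p ∣ z ∧ ¬ p^2 ∣ z))).image
    (fun z => z + l) with hB1
  have hsub : evenSizes q l K ⊆ ↑(A ∪ B₁ : Finset ℕ) := by
    rintro k ⟨hk0, hkK, v, B, hd, s, hs, hsq, hev⟩
    obtain ⟨hlk, -⟩ := design_lt hk0 (toH12 hd)
    rw [mem_coe, mem_union]
    rcases Nat.even_or_odd v with hv | hv
    · left
      rw [hA, mem_filter, mem_range]
      exact ⟨by omega, hlk, brc_even (toH12 hd) hlk (Nat.even_iff.mp hv)⟩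
    · right
      rw [hB1, mem_image]
      refine ⟨k - l, ?_, by omega⟩
      rw [mem_filter, mem_range]
      refine ⟨by omega, fun p hp => ?_⟩
      obtain ⟨h1, h2⟩ := hDp p (hP p hp).1 (hP p hp).2
      exact no_exact hd hlk hv s hs q hq hq2 (orderOf_dvd hsq) hev p (hP p hp).1 h2 h1
  have hc1 : (evenSizes q l K).ncard ≤ (A ∪ B₁ : Finset ℕ).card := by
    rw [← Set.ncard_coe_finset]
    exact Set.ncard_le_ncard hsub (Finset.finite_toSet _)
  have hc2 := card_union_le A B₁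
  have hc4 : A.card ≤ Nat.sqrt K + 1 := card_squares l K
  have hc5 : (B₁.card : ℝ) ≤ ((K + 1 : ℕ) + Qsq P) * delta0 P := by
    refine le_trans ?_ (count_not_exactly P (fun p hp => (hP p hp).1) (K+1))
    exact_mod_cast card_image_le
  have hc7 : ((evenSizes q l K).ncard : ℝ) ≤ A.card + B₁.card := by
    exact_mod_cast hc1.trans hc2
  have hc8 : (A.card : ℝ) ≤ Nat.sqrt K + 1 := by exact_mod_cast hc4
  have hc9 : (((K + 1 : ℕ) : ℝ) + Qsq P) * delta0 P ≤ (K + 1 + Qsq P) * ε := by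
    push_cast
    exact mul_le_mul_of_nonneg_left hPε.le (by positivity)
  have hs0 : (0:ℝ) ≤ Nat.sqrt K := by positivity
  have hQ : (0:ℝ) ≤ (Qsq P : ℝ) * ε := by positivity
  nlinarith [mul_nonneg hs0 hε.le, mul_nonneg hs0 hQ]

/-- the primes `q ≡ 3 mod 4` used in the sieve (from `Tset`) -/
lemma exists_split3 (l : ℕ) (hl : 0 < l) (C : ℝ) :
    ∃ Q : Finset ℕ, (∀ q ∈ Q, q.Prime ∧ q % 4 = 3 ∧ ¬ q ∣ l ∧
      ∃ r < q, ∀ k, 0 < k → k % q = r → q ∣ k * (k - 1) + l) ∧ C < ∑ q ∈ Q, (1:ℝ)/q := by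
  obtain ⟨Q, hQ, hC⟩ := Pool.Agent.H24.DS.Tset_div hl C
  refine ⟨Q, fun q hq => ?_, hC⟩
  have h1 := hQ q hq
  obtain ⟨c, hc⟩ := Pool.Agent.H24.DS.Tset_root hl h1
  have hqp := Pool.Agent.H24.DS.Tset_prime h1
  refine ⟨hqp, Pool.Agent.H24.DS.Tset_mod4 hl h1, Pool.Agent.H24.DS.Tset_not_dvd hl h1, c % q,
    Nat.mod_lt _ hqp.pos, fun k hk hkr => hc k hk hkr⟩

/-- the linear bound with small slope for `semiSizes` -/
lemma semi_bound (l : ℕ) (hl : 0 < l) (ε : ℝ) (hε : 0 < ε) :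
    ∃ C : ℝ, ∀ K : ℕ, ((semiSizes l K).ncard : ℝ) ≤ ε * K + C * (Nat.sqrt K + 1) := by
  obtain ⟨c0, hc0⟩ : ∃ C : ℝ, Real.exp (-C) < ε / 2 := by
    obtain ⟨x, hx⟩ := (Real.tendsto_exp_atBot.eventually (gt_mem_nhds (half_pos hε))).exists
    exact ⟨-x, by rw [neg_neg]; exact hx⟩
  obtain ⟨Q, hQ, hQsum⟩ := exists_split3 l hl c0
  set η := ε / (2 * (Q.card + 1)) with hη
  have hη0 : 0 < η := by positivity
  -- the classes
  have hr : ∃ r : ℕ → ℕ, ∀ q ∈ Q, r q < q ∧ ∀ k, 0 < k → k % q = r q → q ∣ k * (k - 1) + l := by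
    refine ⟨fun q => if h : q ∈ Q then (hQ q h).2.2.2.choose else 0, fun q hq => ?_⟩
    simp only [hq, dif_pos]
    exact (hQ q hq).2.2.2.choose_spec
  obtain ⟨r, hr⟩ := hr
  have hP : ∃ P : ℕ → Finset ℕ, ∀ q ∈ Q, (∀ p ∈ P q, p.Prime ∧ p ≠ q ∧ ¬ IsSquare (p : ZMod q)) ∧
      delta0 (P q) < η := by
    have : ∀ q : ℕ, ∃ P : Finset ℕ, q ∈ Q → (∀ p ∈ P, p.Prime ∧ p ≠ q ∧ ¬ IsSquare (p : ZMod q)) ∧
      delta0 P < η := by
      intro q
      by_cases hq : q ∈ Q
      · obtain ⟨D, hD, hDp⟩ := exists_disc q (hQ q hq).1 (by have := (hQ q hq).2.1; rintro rfl; omega)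
        obtain ⟨P, hP, hPε⟩ := delta0_small D hD η hη0
        exact ⟨P, fun _ => ⟨fun p hp => ⟨(hP p hp).1, hDp p (hP p hp).1 (hP p hp).2⟩, hPε⟩⟩
      · exact ⟨∅, fun h => absurd h hq⟩
    choose P hP using this
    exact ⟨P, hP⟩
  obtain ⟨P, hP⟩ := hP
  refine ⟨1 + ∑ q ∈ Q, (1 + Qsq (P q)) * η + (∏ q ∈ Q, q : ℕ) * (ε/2), fun K => ?_⟩
  set A := (range (K+1)).filter (fun k => l < k ∧ IsSquare (k - l)) with hA
  set B₁ : ℕ → Finset ℕ := fun q =>
    ((range (K+1)).filter (fun z => ∀ p ∈ P q, ¬ (p ∣ z ∧ ¬ p^2 ∣ z))).image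
    (fun z => z + l) with hB1
  set E := (range (K+1)).filter (fun k => ∀ q ∈ Q, k % q ≠ r q) with hE
  have hsub : semiSizes l K ⊆ ↑(A ∪ Q.biUnion B₁ ∪ E : Finset ℕ) := by
    rintro k ⟨hk0, hkK, v, B, hd, hfree⟩
    obtain ⟨hlk, hlv⟩ := design_lt hk0 (toH12 hd)
    rw [mem_coe, mem_union, mem_union]
    rcases Nat.even_or_odd v with hv | hv
    · left; left
      rw [hA, mem_filter, mem_range]
      exact ⟨by omega, hlk, brc_even (toH12 hd) hlk (Nat.even_iff.mp hv)⟩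
    by_cases hkE : ∀ q ∈ Q, k % q ≠ r q
    · right
      rw [hE, mem_filter, mem_range]
      exact ⟨by omega, hkE⟩
    left; right
    push Not at hkE
    obtain ⟨q, hq, hkq⟩ := hkE
    rw [mem_biUnion]
    refine ⟨q, hq, ?_⟩
    rw [hB1, mem_image]
    refine ⟨k - l, ?_, by omega⟩
    rw [mem_filter, mem_range]
    refine ⟨by omega, fun p hp => ?_⟩
    obtain ⟨hqp, hq4, hql, -⟩ := hQ q hq
    have hqv : q ∣ v := by
      have h1 := (hr q hq).2 k hk0 hkq
      have h2 : k * (k - 1) + l = l * v := by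
        rw [← hlv]
        have : 0 < v := by have := hd.1; omega
        obtain ⟨w, rfl⟩ : ∃ w, v = w + 1 := ⟨v - 1, by omega⟩
        simp; ring
      rw [h2] at h1
      exact (hqp.dvd_mul.mp h1).resolve_left hql
    obtain ⟨s, hs, hsq, hev⟩ := hfree q hqp hq4 hqv
    obtain ⟨hp1, hp2, hp3⟩ := (hP q hq).1 p hp
    exact no_exact hd hlk hv s hs q hqp (by rintro rfl; omega) (orderOf_dvd hsq) hev p hp1 hp3 hp2
  have hc1 : (semiSizes l K).ncard ≤ (A ∪ Q.biUnion B₁ ∪ E : Finset ℕ).card := by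
    rw [← Set.ncard_coe_finset]
    exact Set.ncard_le_ncard hsub (Finset.finite_toSet _)
  have hc2 := card_union_le (A ∪ Q.biUnion B₁) E
  have hc3 := card_union_le A (Q.biUnion B₁)
  have hc3' : (Q.biUnion B₁).card ≤ ∑ q ∈ Q, (B₁ q).card := card_biUnion_le
  have hc4 : A.card ≤ Nat.sqrt K + 1 := card_squares l K
  have hc5 : ∀ q ∈ Q, ((B₁ q).card : ℝ) ≤ ((K + 1 : ℝ) + Qsq (P q)) * η := by
    intro q hq
    have h1 : ((B₁ q).card : ℝ) ≤ ((K + 1 : ℕ) + Qsq (P q)) * delta0 (P q) := by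
      refine le_trans ?_ (count_not_exactly (P q) (fun p hp => ((hP q hq).1 p hp).1) (K+1))
      exact_mod_cast card_image_le
    refine h1.trans ?_
    push_cast
    exact mul_le_mul_of_nonneg_left (hP q hq).2.le (by positivity)
  have hc6 : (E.card : ℝ) ≤ (K + (∏ q ∈ Q, q : ℕ)) * (ε/2) := by
    refine (count_avoid Q (fun q hq => (hQ q hq).1) r (fun q hq => (hr q hq).1) K).trans ?_
    refine mul_le_mul_of_nonneg_left ?_ (by positivity)
    refine (prod_small Q (fun q hq => (hQ q hq).1)).trans (le_trans ?_ hc0.le)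
    exact Real.exp_le_exp.mpr (by linarith)
  have hc7 : ((semiSizes l K).ncard : ℝ) ≤ A.card + ∑ q ∈ Q, ((B₁ q).card : ℝ) + E.card := by
    have : (semiSizes l K).ncard ≤ A.card + ∑ q ∈ Q, (B₁ q).card + E.card := by omega
    exact_mod_cast this
  have hc8 : (A.card : ℝ) ≤ Nat.sqrt K + 1 := by exact_mod_cast hc4
  have hc9 : ∑ q ∈ Q, ((B₁ q).card : ℝ) ≤ K * (ε/2) + ∑ q ∈ Q, (1 + Qsq (P q)) * η := by
    refine (sum_le_sum hc5).trans ?_
    have h1 : ∀ q ∈ Q, ((K + 1 : ℝ) + Qsq (P q)) * η = K * η + (1 + Qsq (P q)) * η := by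
      intro q _; ring
    rw [sum_congr rfl h1, sum_add_distrib, sum_const, nsmul_eq_mul]
    have h2 : (Q.card : ℝ) * (K * η) ≤ K * (ε/2) := by
      have h3 : (Q.card : ℝ) * η ≤ ε / 2 := by
        rw [hη, mul_div_assoc', div_le_div_iff₀ (by positivity) (by norm_num)]
        nlinarith [hε]
      have := mul_le_mul_of_nonneg_left h3 (by positivity : (0:ℝ) ≤ K)
      linarith
    linarith
  have hS : 0 ≤ ∑ q ∈ Q, (1 + (Qsq (P q) : ℝ)) * η := sum_nonneg fun q _ => by positivity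
  have hM : (0:ℝ) ≤ (∏ q ∈ Q, q : ℕ) * (ε/2) := by positivity
  have hs0 : (0:ℝ) ≤ Nat.sqrt K := by positivity
  nlinarith [mul_nonneg hs0 hS, mul_nonneg hs0 hM]

theorem even_density (l : ℕ) (hl : 0 < l) (q : ℕ) (hq : q.Prime) (hq2 : q ≠ 2) :
    Tendsto (fun K : ℕ => ((evenSizes q l K).ncard : ℝ) / ((admissibleSizes l K).ncard : ℝ))
      atTop (𝓝 0) :=
  tendsto_ratio l hl (fun K => ((evenSizes q l K).ncard : ℝ)) (fun K => by positivity)
    (fun ε hε => even_bound l q hq hq2 ε hε)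

theorem semi_density (l : ℕ) (hl : 0 < l) :
    Tendsto (fun K : ℕ => ((semiSizes l K).ncard : ℝ) / ((admissibleSizes l K).ncard : ℝ))
      atTop (𝓝 0) :=
  tendsto_ratio l hl (fun K => ((semiSizes l K).ncard : ℝ)) (fun K => by positivity)
    (fun ε hε => semi_bound l hl ε hε)

end Pool.Agent.H96.Sing
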