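import Mathlib
import Pool.Agent.H96.Sing.Main
import Pool.Agent.H96.Sing.DiffSet
import Pool.Agent.H96.Sing.Group

/-!
Assembly of the final statements.
-/

namespace Pool.Agent.H96.Sing

open Filter Topology

lemma adm_finite (l K : ℕ) : (admissibleSizes l K).Finite :=
  (Set.finite_Iic K).subset fun _ hk => hk.2.1

lemma semi_subset (l K : ℕ) : semiSizes l K ⊆ admissibleSizes l K := by
  rintro k ⟨hk0, hkK, v, B, hd, -⟩
  obtain ⟨h1, h2⟩ := Pool.Agent.H12.design_lt hk0 (toH12 hd)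
  exact ⟨h1, hkK, ⟨v - 1, h2.symm⟩⟩

lemma even_subset (q l K : ℕ) : evenSizes q l K ⊆ admissibleSizes l K := by
  rintro k ⟨hk0, hkK, v, B, hd, -⟩
  obtain ⟨h1, h2⟩ := Pool.Agent.H12.design_lt hk0 (toH12 hd)
  exact ⟨h1, hkK, ⟨v - 1, h2.symm⟩⟩

/-- a permutation with `s ^ q = 1` without fixed points has order `q` and `0` fixed points -/
lemma free_even {v : ℕ} {B : Fin v → Finset (Fin v)} {s : Equiv.Perm (Fin v)} {q : ℕ}
    (hq : q.Prime) (hv : 0 < v) (h1 : IsAut B s) (h2 : s ^ q = 1) (h3 : ∀ x, s x ≠ x) :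
    ∃ s, IsAut B s ∧ orderOf s = q ∧ Even (Finset.univ.filter (fun x => s x = x)).card := by
  refine ⟨s, h1, ?_, ?_⟩
  · have hs1 : s ≠ 1 := by
      rintro rfl
      exact h3 ⟨0, hv⟩ rfl
    have : Fact q.Prime := ⟨hq⟩
    exact orderOf_eq_prime h2 hs1
  · have : (Finset.univ.filter (fun x => s x = x)) = ∅ := by
      rw [Finset.filter_eq_empty_iff]
      intro x _
      exact h3 x
    rw [this]; simp

lemma diffSet_mem (l : ℕ) (G : Type) [Group G] [Finite G] (D : Finset G)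
    (hD : IsDifferenceSet G D l) (h0 : 0 < D.card) (hlt : D.card < Nat.card G) (K : ℕ)
    (hK : D.card ≤ K) : D.card ∈ semiSizes l K := by
  obtain ⟨B, hB, hfree⟩ := design_of_diffSet G D l hD hlt
  refine ⟨h0, hK, _, B, hB, fun q hq _ hqv => ?_⟩
  obtain ⟨s, h1, h2, h3⟩ := hfree q hq hqv
  exact free_even hq (by omega) h1 h2 h3

lemma group_mem (l v k : ℕ) (B : Fin v → Finset (Fin v)) (hB : IsSymmetricDesign v k l B)
    (hk : 0 < k) (H : Subgroup (Equiv.Perm (Fin v))) (hH : ∀ s ∈ H, IsAut B s)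
    (htrans : ∀ x y, ∃ s ∈ H, s x = y)
    (hcond : (∀ x : Fin v, Nat.Coprime (Nat.card (MulAction.stabilizer H x)) v) ∨
      Group.IsNilpotent H) (K : ℕ) (hK : k ≤ K) : k ∈ semiSizes l K := by
  refine ⟨hk, hK, v, B, hB, fun q hq _ hqv => ?_⟩
  have hv : 0 < v := by have := hB.1; omega
  obtain ⟨s, hs, h1, h2⟩ := fpf_of_group hv H htrans hcond q hq hqv
  exact free_even hq hv (hH s hs) h1 h2

end Pool.Agent.H96.Sing
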