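import Mathlib
import Pool.Agent.H96.Sing.Defs
import Pool.Agent.H96.Sing.Final

/-!
# Automorphisms of a fixed odd prime order have an odd number of fixed points, almost always

Fix `l > 0` (perfect squares included) and an odd prime `q`.  Among the block sizes `l < k ≤ K` with
`l ∣ k (k-1)`, the proportion of those for which some symmetric `(v,k,l)`-design has an
automorphism of order `q` with an even number of fixed points (for instance none) tends to `0` as
`K → ∞`.
-/

namespace Pool.Agent.H96.Sing.EvenFixedPoints

open Filter Topology Pool.Agent.H96.Sing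

theorem result (l : ℕ) (hl : 0 < l) (q : ℕ) (hq : q.Prime) (hq2 : q ≠ 2) :
    (∀ K, (admissibleSizes l K).Finite) ∧ (∀ K, evenSizes q l K ⊆ admissibleSizes l K) ∧
    Tendsto (fun K : ℕ => ((evenSizes q l K).ncard : ℝ) / ((admissibleSizes l K).ncard : ℝ))
      atTop (𝓝 0) :=
  ⟨adm_finite l, even_subset q l, even_density l hl q hq hq2⟩

end Pool.Agent.H96.Sing.EvenFixedPoints
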